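import Pool.Agent.Run7.h787.ST.Iface2

/-!
# Project ST (helper787), piece CYN: the numbers `2 cos (π / 2 ^ (n + 1))` are not all in `H`
-/

set_option autoImplicit false

open NumberField IsDedekindDomain

noncomputable section

namespace Pool.Agent.Run7.h305.ST

open Pool.Agent.Run7.h787.ST

theorem cy_bd (n : ℕ) : 0 ≤ cy n ∧ cy n < 2 := by
  induction n with
  | zero => simp [cy]
  | succ n ih =>
    refine ⟨Real.sqrt_nonneg _, ?_⟩
    change Real.sqrt (2 + cy n) < 2
    rw [Real.sqrt_lt' two_pos]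
    linarith [ih.2]

theorem cy_sq (n : ℕ) : cy (n + 1) ^ 2 = 2 + cy n :=
  Real.sq_sqrt (by linarith [(cy_bd n).1])

theorem cy_lt (n : ℕ) : cy n < cy (n + 1) := by
  obtain ⟨h1, h2⟩ := cy_bd n
  change cy n < Real.sqrt (2 + cy n)
  rw [Real.lt_sqrt h1]
  nlinarith

theorem t_CYN : S_CYN := by
  intro K _ _ _ H hH
  by_contra hcon
  push Not at hcon
  have hmem : ∀ n, cy n ∈ H := by
    intro n
    induction n with
    | zero => exact H.zero_mem
    | succ n ih => exact hcon n ih
  have hnf : NumberField H := by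
    have : FiniteDimensional ℚ H := FiniteDimensional.trans ℚ K H
    exact NumberField.mk
  let c : ℕ → H := fun n => ⟨cy n, hmem n⟩
  have hinj : Function.Injective c := by
    intro m n h
    have h1 : cy m = cy n := congrArg (fun x : H => (x : ℝ)) h
    exact (strictMono_nat_of_lt_succ cy_lt).injective h1
  have hsq : ∀ n, c (n + 1) ^ 2 = 2 + c n := by
    intro n
    apply Subtype.ext
    change cy (n + 1) ^ 2 = ((2 : H) : ℝ) + cy n
    rw [cy_sq]
    have h2 : ((2 : H) : ℝ) = 2 := map_ofNat H.val 2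
    rw [h2]
  have hint : ∀ n, IsIntegral ℤ (c n) := by
    intro n
    induction n with
    | zero =>
      have h0 : c 0 = 0 := rfl
      rw [h0]
      exact isIntegral_zero
    | succ n ih =>
      apply IsIntegral.of_pow (n := 2) two_pos
      rw [hsq]
      exact IsIntegral.add (by exact_mod_cast isIntegral_algebraMap (R := ℤ) (A := H) (x := 2)) ih
  have hnorm : ∀ (φ : H →+* ℂ) (n : ℕ), ‖φ (c n)‖ ≤ 2 := by
    intro φ n
    induction n with
    | zero =>
      have h0 : c 0 = 0 := rfl
      rw [h0]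
      simp
    | succ n ih =>
      have h1 : φ (c (n + 1)) ^ 2 = 2 + φ (c n) := by
        rw [← map_pow, hsq, map_add]
        have h3 : φ 2 = 2 := map_ofNat φ 2
        rw [h3]
      have h2 : ‖φ (c (n + 1))‖ ^ 2 ≤ 2 ^ 2 := by
        rw [← norm_pow, h1]
        calc ‖2 + φ (c n)‖ ≤ ‖(2 : ℂ)‖ + ‖φ (c n)‖ := norm_add_le _ _
          _ ≤ 2 ^ 2 := by
            have : ‖(2 : ℂ)‖ = 2 := by simp
            rw [this]; linarith
      exact le_of_sq_le_sq h2 (by norm_num)
  have hfin := NumberField.Embeddings.finite_of_norm_le H ℂ 2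
  exact Set.infinite_of_injective_forall_mem (s := {x : H | IsIntegral ℤ x ∧ ∀ φ : H →+* ℂ, ‖φ x‖ ≤ 2})
    hinj (fun n => ⟨hint n, fun φ => hnorm φ n⟩) hfin

end Pool.Agent.Run7.h305.ST
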