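import Pool.Agent.Run7.h787.ST.Iface2

/-!
# Project ST (helper787), piece HNT: Hilbert 90
-/

set_option autoImplicit false

open NumberField IsDedekindDomain

noncomputable section

namespace Pool.Agent.Run7.h305.ST

open Pool.Agent.Run7.h787.ST

theorem t_HNT : S_HNT := by
  intro K _ _ _ H hH y Z hy hpos hZ
  have := hH.1
  have := hH.2
  have hZpos : ∀ g, 0 < ((Z g : H) : ℝ) := fun g => by
    have h1 := hpos 1 g
    simpa using h1
  have hZne : ∀ g, Z g ≠ 0 := fun g h => by
    have h1 := hZpos g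
    rw [h] at h1
    simp at h1
  have hgy : ∀ g : Gal H, g y ≠ 0 := fun g => by simpa using hy
  have hcoc : ∀ g g' : Gal H, Z (g * g') = g (Z g') * Z g := by
    intro g g'
    have h1 : Z (g * g') ^ 2 * (g * g') y = y := hZ _
    have h2 : g (Z g' ^ 2 * g' y) = g y := congrArg g (hZ g')
    rw [map_mul, map_pow] at h2
    have h3 : Z g ^ 2 * g y = y := hZ g
    have h4 : (g * g') y = g (g' y) := rfl
    have h5 : Z (g * g') ^ 2 = (g (Z g') * Z g) ^ 2 := by
      apply mul_right_cancel₀ (hgy (g * g'))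
      rw [h1, h4]
      linear_combination (-1 : H) * h3 - (Z g) ^ 2 * h2
    have h6 : (((Z (g * g') : H) : ℝ)) ^ 2 = (((g (Z g') : H) : ℝ) * ((Z g : H) : ℝ)) ^ 2 := by
      have h7 := congrArg (fun x : H => (x : ℝ)) h5
      simpa using h7
    have h7 := (sq_eq_sq₀ (hZpos _).le (mul_pos (hpos g g') (hZpos g)).le).1 h6
    apply Subtype.ext
    simpa using h7
  let f : Gal H → Hˣ := fun g => Units.mk0 (Z g) (hZne g)
  have hf : groupCohomology.IsMulCocycle₁ f := by
    intro g g'
    apply Units.ext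
    change Z (g * g') = _
    rw [hcoc]
    rfl
  obtain ⟨β, hβ⟩ := groupCohomology.isMulCoboundary₁_of_isMulCocycle₁_of_aut_to_units f hf
  have hβ' : ∀ g : Gal H, g (β : H) = Z g * (β : H) := by
    intro g
    have h1 := hβ g
    rw [div_eq_iff_eq_mul] at h1
    have h2 := congrArg (fun u : Hˣ => (u : H)) h1
    exact h2
  have hβ0 : (β : H) ≠ 0 := β.ne_zero
  have hfix : y * (β : H) ^ 2 ∈ Set.range (algebraMap K H) := by
    rw [IsGalois.mem_range_algebraMap_iff_fixed]
    intro g
    rw [map_mul, map_pow, hβ' g]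
    linear_combination (β : H) ^ 2 * hZ g
  obtain ⟨b, hb⟩ := hfix
  refine ⟨b, (β : H)⁻¹, inv_ne_zero hβ0, ?_, ?_⟩
  · intro g
    rw [map_inv₀, hβ' g, mul_inv, ← mul_assoc, mul_inv_cancel₀ (hZne g), one_mul]
  · rw [hb]
    field_simp

end Pool.Agent.Run7.h305.ST
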